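import Pool.Agent.Lib.MP_b1a3a4_al.MVS.HO.Iface

/-!
# CONE (10.20): extension of cocycles to a cone in the cyclic extension
-/

namespace Pool.Agent.Lib.MP_b1a3a4_al.MVS.HO.H36

section words

variable {G : Type} [Group G]

lemma subst_append (θ : G → List G) (u v : List G) :
    subst θ (u ++ v) = subst θ u ++ subst θ v := by
  simp [subst]

lemma subst_cons (θ : G → List G) (x : G) (v : List G) :
    subst θ (x :: v) = θ x ++ subst θ v := by
  simp [subst]

lemma iter_subst_append (θ : G → List G) (n : ℕ) : ∀ u v : List G,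
    (subst θ)^[n] (u ++ v) = (subst θ)^[n] u ++ (subst θ)^[n] v := by
  induction n with
  | zero => intro u v; rfl
  | succ n ih =>
    intro u v
    rw [Function.iterate_succ_apply, Function.iterate_succ_apply, Function.iterate_succ_apply,
      subst_append, ih]

lemma subst_letters {E : Set G} {θ : G → List G} (hθ : ∀ e, ∀ x ∈ θ e, x ∈ E) (w : List G) :
    ∀ x ∈ subst θ w, x ∈ E := by
  intro x hx
  rw [subst, List.mem_flatMap] at hx
  obtain ⟨e, _, hx⟩ := hx
  exact hθ e x hx

lemma subst_prod {θ : G → List G} {σ : G →* G} (hθ : ∀ e, (θ e).prod = σ e) (w : List G) :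
    (subst θ w).prod = σ w.prod := by
  induction w with
  | nil => simp [subst]
  | cons x w ih => rw [subst_cons, List.prod_append, ih, hθ, List.prod_cons, map_mul]

/-- `Th^i` -/
def TH (θp θm : G → List G) (i : ℤ) (w : List G) : List G :=
  if 0 ≤ i then (subst θp)^[i.toNat] w else (subst θm)^[(-i).toNat] w

variable {θp θm : G → List G}

lemma TH_append (i : ℤ) (u v : List G) :
    TH θp θm i (u ++ v) = TH θp θm i u ++ TH θp θm i v := by
  unfold TH
  split_ifs
  · exact iter_subst_append _ _ _ _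
  · exact iter_subst_append _ _ _ _

lemma TH_zero (w : List G) : TH θp θm 0 w = w := by
  unfold TH
  rw [if_pos le_rfl]
  rfl

lemma TH_letters {E : Set G} (hp : ∀ e, ∀ x ∈ θp e, x ∈ E) (hm : ∀ e, ∀ x ∈ θm e, x ∈ E) (i : ℤ)
    (w : List G) (hw : ∀ x ∈ w, x ∈ E) : ∀ x ∈ TH θp θm i w, x ∈ E := by
  have key : ∀ (θ : G → List G), (∀ e, ∀ x ∈ θ e, x ∈ E) → ∀ n : ℕ,
      ∀ x ∈ (subst θ)^[n] w, x ∈ E := by
    intro θ hθ n
    cases n with
    | zero => exact hw
    | succ n =>
      rw [Function.iterate_succ_apply']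
      exact subst_letters hθ _
  unfold TH
  split_ifs
  · exact key _ hp _
  · exact key _ hm _

lemma TH_up (n : ℕ) (i : ℤ) (hi : 0 ≤ i) (w : List G) :
    TH θp θm (n + i) w = (subst θp)^[n] (TH θp θm i w) := by
  unfold TH
  rw [if_pos hi, if_pos (by omega), ← Function.iterate_add_apply]
  congr 1
  congr 1
  omega

lemma TH_down (n : ℕ) (i : ℤ) (hi : i ≤ 0) (w : List G) :
    TH θp θm (i - n) w = (subst θm)^[n] (TH θp θm i w) := by
  by_cases h0 : i = 0
  · subst h0
    rw [TH_zero]
    by_cases hn : n = 0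
    · subst hn
      simp [TH_zero]
    · unfold TH
      rw [if_neg (by omega)]
      congr 1
      congr 1
      omega
  · unfold TH
    rw [if_neg (by omega), if_neg (by omega), ← Function.iterate_add_apply]
    congr 1
    congr 1
    omega

end words

section bounds

variable {G : Type} [Group G]

/-- every path stays in a half-space -/
lemma exists_inPath {E : Set G} (χ : Chr G) (w : List G) : ∀ (g : G), (∀ x ∈ w, x ∈ E) →
    ∃ a : ℝ, InPath E (up (val χ) (-a)) g w := by
  induction w with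
  | nil =>
    intro g _
    exact ⟨-val χ g, by simp [mem_up]⟩
  | cons x w ih =>
    intro g hw
    obtain ⟨a, ha⟩ := ih (g * x) (fun y hy => hw y (List.mem_cons_of_mem _ hy))
    refine ⟨max a (-val χ g), ?_, hw x List.mem_cons_self, ha.mono le_rfl (up_mono ?_)⟩
    · rw [mem_up]
      have := le_max_right a (-val χ g)
      linarith
    · have := le_max_left a (-val χ g)
      linarith

/-- finite sets lie in a half-space -/
lemma exists_subset_up {F : Set G} (hF : F.Finite) (χ : Chr G) :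
    ∃ a : ℝ, F ⊆ up (val χ) (-a) := by
  obtain ⟨a, ha⟩ := (hF.image (val χ)).bddBelow
  refine ⟨-a, fun x hx => ?_⟩
  rw [mem_up, neg_neg]
  exact ha ⟨x, hx, rfl⟩

/-- uniform bounds on finite sets -/
lemma exists_unif {α : Type} {T : Set α} (hT : T.Finite) {P : α → ℝ → Prop}
    (h1 : ∀ x ∈ T, ∃ a, P x a) (h2 : ∀ x a b, a ≤ b → P x a → P x b) :
    ∃ a : ℝ, 0 ≤ a ∧ ∀ x ∈ T, P x a := by
  induction T, hT using Set.Finite.induction_on with
  | empty => exact ⟨0, le_rfl, fun x hx => hx.elim⟩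
  | @insert x T _ _ ih =>
    obtain ⟨a, ha, h⟩ := ih (fun y hy => h1 y (Set.mem_insert_of_mem _ hy))
    obtain ⟨b, hb⟩ := h1 x (Set.mem_insert _ _)
    refine ⟨max a b, le_max_of_le_left ha, fun y hy => ?_⟩
    rcases Set.mem_insert_iff.1 hy with rfl | hy
    · exact h2 _ _ _ (le_max_right _ _) hb
    · exact h2 _ _ _ (le_max_left _ _) (h y hy)

end bounds

theorem cone (hT : ThetaStatement) (hC : CarrStatement) : ConeStatement := by
  classical
  intro S S' _ _ j ψ hses χ t ht hχt E hE E' hE'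
  -- the integral character
  obtain ⟨p, hp⟩ : ∃ p : S' → ℤ, ∀ g, p g = Multiplicative.toAdd (ψ g) := ⟨_, fun _ => rfl⟩
  have hpmul : ∀ g h, p (g * h) = p g + p h := by
    intro g h
    rw [hp, hp, hp, map_mul, toAdd_mul]
  have hpj : ∀ s, p (j s) = 0 := by
    intro s
    rw [hp, (hses.ex (j s)).2 ⟨s, rfl⟩, toAdd_one]
  have hpt : ∀ i : ℤ, p (t ^ i) = i := by
    intro i
    rw [hp, map_zpow, ht, ← ofAdd_zsmul, toAdd_ofAdd, smul_eq_mul, mul_one]
  have hker : ∀ g, p g = 0 → ∃ s, j s = g := by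
    intro g hg
    rw [hp] at hg
    exact (hses.ex g).1 (by simpa using hg)
  have hχti : ∀ i : ℤ, val χ (t ^ i) = 0 := by
    intro i
    rw [val_zpow, hχt, mul_zero]
  -- conjugation by powers of `t`
  have hsg : ∀ (i : ℤ) (s : S), ∃ s', j s' = t ^ i * j s * t ^ (-i) := by
    intro i s
    apply hker
    rw [hpmul, hpmul, hpt, hpt, hpj]
    ring
  choose sg hsg using hsg
  have hsgmul : ∀ i a b, sg i (a * b) = sg i a * sg i b := by
    intro i a b
    apply hses.inj
    rw [map_mul, hsg, hsg, hsg, map_mul]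
    group
  have hsgone : ∀ i, sg i 1 = 1 := by
    intro i
    apply hses.inj
    rw [hsg, map_one, mul_one, ← zpow_add, add_neg_cancel, zpow_zero]
  have hsgadd : ∀ i k s, sg (i + k) s = sg i (sg k s) := by
    intro i k s
    apply hses.inj
    rw [hsg, hsg, hsg]
    group
  have hsgzero : ∀ s, sg 0 s = s := by
    intro s
    apply hses.inj
    rw [hsg]
    group
  have hsgval : ∀ i s, val χ (j (sg i s)) = val χ (j s) := by
    intro i s
    rw [hsg, val_mul, val_mul, hχti, hχti]
    ring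
  -- the components of an element
  have hsp : ∀ g : S', ∃ s, j s = g * t ^ (-p g) := by
    intro g
    apply hker
    rw [hpmul, hpt]
    ring
  choose sp hsp using hsp
  have hse : ∀ g : S', ∃ s, j s = t ^ (-p g) * g := by
    intro g
    apply hker
    rw [hpmul, hpt]
    ring
  choose se hse using hse
  have hspval : ∀ g, val χ (j (sp g)) = val χ g := by
    intro g
    rw [hsp, val_mul, hχti, add_zero]
  have hspmul : ∀ g e, sp (g * e) = sp g * sg (p g + p e) (se e) := by
    intro g e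
    apply hses.inj
    rw [map_mul, hsp, hsp, hsg, hse, hpmul]
    group
  have hsemul : ∀ e f, se (e * f) = sg (-p f) (se e) * se f := by
    intro e f
    apply hses.inj
    rw [map_mul, hse, hse, hsg, hse, hpmul]
    group
  -- words
  have hwd : ∀ s : S, ∃ w : List S, (∀ x ∈ w, x ∈ E) ∧ w.prod = s ∧ (s ∈ E → w = [s]) := by
    intro s
    by_cases hs : s ∈ E
    · exact ⟨[s], by simpa using hs, by simp, fun _ => rfl⟩
    · obtain ⟨w, h1, h2⟩ := hE.conn s
      exact ⟨w, h1, h2, fun h => absurd h hs⟩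
  choose wd hwdE hwdp hwd1 using hwd
  obtain ⟨θp, hθp⟩ : ∃ θp : S → List S, ∀ e, θp e = wd (sg 1 e) := ⟨_, fun _ => rfl⟩
  obtain ⟨θm, hθm⟩ : ∃ θm : S → List S, ∀ e, θm e = wd (sg (-1) e) := ⟨_, fun _ => rfl⟩
  have hθpE : ∀ e, ∀ x ∈ θp e, x ∈ E := by
    intro e
    rw [hθp]
    exact hwdE _
  have hθmE : ∀ e, ∀ x ∈ θm e, x ∈ E := by
    intro e
    rw [hθm]
    exact hwdE _
  let σp : S →* S := { toFun := sg 1, map_one' := hsgone 1, map_mul' := hsgmul 1 }
  let σm : S →* S := { toFun := sg (-1), map_one' := hsgone (-1), map_mul' := hsgmul (-1) }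
  have hσp : ∀ s, σp s = sg 1 s := fun _ => rfl
  have hσm : ∀ s, σm s = sg (-1) s := fun _ => rfl
  have hθpp : ∀ e, (θp e).prod = σp e := by
    intro e
    rw [hθp, hwdp, hσp]
  have hθmp : ∀ e, (θm e).prod = σm e := by
    intro e
    rw [hθm, hwdp, hσm]
  have hTHl : ∀ i w, (∀ x ∈ w, x ∈ E) → ∀ x ∈ TH θp θm i w, x ∈ E := fun i w hw =>
    TH_letters hθpE hθmE i w hw
  have hitp : ∀ (n : ℕ) (w : List S), ((subst θp)^[n] w).prod = sg n w.prod := by
    intro n
    induction n with
    | zero => intro w; simp [hsgzero]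
    | succ n ih =>
      intro w
      rw [Function.iterate_succ_apply', subst_prod hθpp, ih, hσp, ← hsgadd]
      congr 1
      push_cast
      ring
  have hitm : ∀ (n : ℕ) (w : List S), ((subst θm)^[n] w).prod = sg (-n) w.prod := by
    intro n
    induction n with
    | zero => intro w; simp [hsgzero]
    | succ n ih =>
      intro w
      rw [Function.iterate_succ_apply', subst_prod hθmp, ih, hσm, ← hsgadd]
      congr 1
      push_cast
      ring
  have hTHp : ∀ i w, (TH θp θm i w).prod = sg i w.prod := by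
    intro i w
    unfold TH
    split_ifs with h
    · rw [hitp, Int.toNat_of_nonneg h]
    · rw [hitm, Int.toNat_of_nonneg (by omega), neg_neg]
  -- the two words of a pair
  obtain ⟨P, hP⟩ : ∃ P : ℤ → S' → S' → List S, ∀ k e f, P k e f =
      TH θp θm (k - p f) (wd (se e)) ++ TH θp θm k (wd (se f)) := ⟨_, fun _ _ _ => rfl⟩
  obtain ⟨Q, hQ⟩ : ∃ Q : ℤ → S' → S' → List S, ∀ k e f, Q k e f =
      TH θp θm k (wd (se (e * f))) := ⟨_, fun _ _ _ => rfl⟩
  have hPE : ∀ k e f, ∀ x ∈ P k e f, x ∈ E := by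
    intro k e f x hx
    rw [hP, List.mem_append] at hx
    rcases hx with hx | hx
    · exact hTHl _ _ (hwdE _) x hx
    · exact hTHl _ _ (hwdE _) x hx
  have hQE : ∀ k e f, ∀ x ∈ Q k e f, x ∈ E := by
    intro k e f x hx
    rw [hQ] at hx
    exact hTHl _ _ (hwdE _) x hx
  have hPQ : ∀ k e f, (P k e f).prod = (Q k e f).prod := by
    intro k e f
    rw [hP, hQ, List.prod_append, hTHp, hTHp, hTHp, hwdp, hwdp, hwdp, hsemul, hsgmul, ← hsgadd]
    rfl
  -- a bound for the integral character on `E'`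
  obtain ⟨m, hm⟩ : ∃ m : ℕ, ∀ e ∈ E', |p e| ≤ m := by
    obtain ⟨B, hB⟩ := (hE'.image (fun e => (|p e|).toNat)).bddAbove
    refine ⟨B, fun e he => ?_⟩
    have h1 : (|p e|).toNat ≤ B := hB ⟨e, he, rfl⟩
    have h2 := abs_nonneg (p e)
    omega
  -- uniform constants for the finitely many pairs
  obtain ⟨A, hA0, hA⟩ : ∃ a : ℝ, 0 ≤ a ∧ ∀ x ∈ (Set.Icc (-(m : ℤ)) m) ×ˢ (E' ×ˢ E'),
      InPath E (up (val (χ.res j)) (-a)) 1 (P x.1 x.2.1 x.2.2) ∧
      InPath E (up (val (χ.res j)) (-a)) 1 (Q x.1 x.2.1 x.2.2) ∧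
      SameHol E (up (val (χ.res j)) (-a)) 1 (P x.1 x.2.1 x.2.2) (Q x.1 x.2.1 x.2.2) := by
    refine exists_unif ((Set.finite_Icc _ _).prod (hE'.prod hE')) ?_ ?_
    · rintro ⟨k, e, f⟩ _
      obtain ⟨a1, h1⟩ := exists_inPath (χ.res j) (P k e f) 1 (hPE k e f)
      obtain ⟨a2, h2⟩ := exists_inPath (χ.res j) (Q k e f) 1 (hQE k e f)
      obtain ⟨F, hF, _, h3⟩ := hC S E Set.univ 1 _ _
        (hE.sameHol (g := 1) (hPE k e f) (hQE k e f) (hPQ k e f))
      obtain ⟨a3, h4⟩ := exists_subset_up hF (χ.res j)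
      refine ⟨max a1 (max a2 a3), h1.mono le_rfl (up_mono ?_), h2.mono le_rfl (up_mono ?_),
        h3.mono le_rfl (h4.trans (up_mono ?_))⟩
      · exact neg_le_neg (le_max_left _ _)
      · exact neg_le_neg ((le_max_left _ _).trans (le_max_right _ _))
      · exact neg_le_neg ((le_max_right _ _).trans (le_max_right _ _))
    · rintro x a b hab ⟨h1, h2, h3⟩
      have h4 : up (val (χ.res j)) (-a) ⊆ up (val (χ.res j)) (-b) := up_mono (neg_le_neg hab)
      exact ⟨h1.mono le_rfl h4, h2.mono le_rfl h4, h3.mono le_rfl h4⟩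
  -- the constants of THETA
  obtain ⟨C1, hC10, hC1⟩ := hT S E hE (χ.res j) σp (fun g => hsgval 1 g) θp
    (fun e _ => ⟨hθpp e, hθpE e⟩)
  obtain ⟨C2, hC20, hC2⟩ := hT S E hE (χ.res j) σm (fun g => hsgval (-1) g) θm
    (fun e _ => ⟨hθmp e, hθmE e⟩)
  -- the main claim
  have main : ∀ (k : ℤ), ∀ e ∈ E', ∀ f ∈ E', ∀ (s : S) (N : ℝ), 0 ≤ N → (|k| : ℝ) - m ≤ N →
      A + N * (C1 + C2) ≤ val χ (j s) →
      SameHol E (up (val (χ.res j)) 0) s (P k e f) (Q k e f) := by
    intro k e he f hf s N hN0 hN hs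
    have hNC : 0 ≤ N * (C1 + C2) := mul_nonneg hN0 (add_nonneg hC10 hC20)
    have htr : ∀ (a : ℝ) (w w' : List S), a ≤ val χ (j s) →
        SameHol E (up (val (χ.res j)) (-a)) 1 w w' →
        SameHol E (up (val (χ.res j)) 0) s w w' := by
      intro a w w' ha h
      have h1 := h.translate s (Z' := up (val (χ.res j)) 0) (fun x hx => by
        rw [mem_up, val_mul, val_res, val_res]
        rw [mem_up, val_res] at hx
        linarith)
      rwa [mul_one] at h1
    have hpf := hm f hf
    rw [abs_le] at hpf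
    by_cases hk1 : (m : ℤ) < k
    · -- `k > m`
      obtain ⟨n, hn⟩ : ∃ n : ℕ, (n : ℤ) = k - m := ⟨(k - m).toNat, by omega⟩
      obtain ⟨h1, h2, h3⟩ := hA ((m : ℤ), e, f) ⟨⟨by simp, le_rfl⟩, he, hf⟩
      simp only at h1 h2 h3
      have h4 := (hC1 (-A) 1 _ _ h1 h2 h3 n).2.2
      have e1 : σp^[n] 1 = 1 := Function.iterate_fixed (map_one σp) n
      rw [e1] at h4
      have e2 : (subst θp)^[n] (P m e f) = P k e f := by
        rw [hP, hP, iter_subst_append, ← TH_up n _ (by omega), ← TH_up n _ (by omega)]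
        congr 2 <;> omega
      have e3 : (subst θp)^[n] (Q m e f) = Q k e f := by
        rw [hQ, hQ, ← TH_up n _ (by omega)]
        congr 1
        omega
      rw [e2, e3] at h4
      refine htr (A + n * C1) _ _ ?_ ?_
      · have hn' : (n : ℝ) ≤ N := by
          have h5 : (n : ℝ) = (k : ℝ) - m := by exact_mod_cast hn
          have h6 : (|k| : ℝ) = k := by
            rw [abs_of_nonneg]
            have : (0 : ℤ) ≤ k := by omega
            exact_mod_cast this
          rw [h5]
          rw [h6] at hN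
          exact hN
        nlinarith [mul_nonneg hN0 hC20, mul_le_mul_of_nonneg_right hn' hC10]
      · have : -(A + n * C1) = -A - n * C1 := by ring
        rw [this]
        exact h4
    · by_cases hk2 : k < -(m : ℤ)
      · obtain ⟨n, hn⟩ : ∃ n : ℕ, (n : ℤ) = -k - m := ⟨(-k - m).toNat, by omega⟩
        obtain ⟨h1, h2, h3⟩ := hA (-(m : ℤ), e, f) ⟨⟨le_rfl, by simp⟩, he, hf⟩
        simp only at h1 h2 h3
        have h4 := (hC2 (-A) 1 _ _ h1 h2 h3 n).2.2
        have e1 : σm^[n] 1 = 1 := Function.iterate_fixed (map_one σm) n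
        rw [e1] at h4
        have e2 : (subst θm)^[n] (P (-m) e f) = P k e f := by
          rw [hP, hP, iter_subst_append, ← TH_down n _ (by omega), ← TH_down n _ (by omega)]
          congr 2 <;> omega
        have e3 : (subst θm)^[n] (Q (-m) e f) = Q k e f := by
          rw [hQ, hQ, ← TH_down n _ (by omega)]
          congr 1
          omega
        rw [e2, e3] at h4
        refine htr (A + n * C2) _ _ ?_ ?_
        · have hn' : (n : ℝ) ≤ N := by
            have h5 : (n : ℝ) = -(k : ℝ) - m := by exact_mod_cast hn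
            have h6 : (|k| : ℝ) = -k := by
              rw [abs_of_nonpos]
              have : k ≤ (0 : ℤ) := by omega
              exact_mod_cast this
            rw [h5]
            rw [h6] at hN
            exact hN
          nlinarith [mul_nonneg hN0 hC10, mul_le_mul_of_nonneg_right hn' hC20]
        · have : -(A + n * C2) = -A - n * C2 := by ring
          rw [this]
          exact h4
      · obtain ⟨h1, h2, h3⟩ := hA (k, e, f) ⟨⟨by omega, by omega⟩, he, hf⟩
        exact htr A _ _ (by linarith) h3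
  -- the extension
  refine ⟨(C1 + C2) + A + m * (C1 + C2), by positivity, ?_⟩
  intro H _ c hc
  refine ⟨fun g h => hol c (sp g) (TH θp θm (p h) (wd (se (g⁻¹ * h)))), ?_, ?_⟩
  · intro g hg h hh k hk he hf hef
    simp only [Set.mem_ofPred_eq] at hg
    obtain ⟨e, hedef⟩ : ∃ e, e = g⁻¹ * h := ⟨_, rfl⟩
    obtain ⟨f, hfdef⟩ : ∃ f, f = h⁻¹ * k := ⟨_, rfl⟩
    have hefdef : g⁻¹ * k = e * f := by
      rw [hedef, hfdef]
      group
    have hh' : h = g * e := by
      rw [hedef]
      group
    have hk' : k = h * f := by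
      rw [hfdef]
      group
    rw [← hedef] at he
    rw [← hfdef] at hf
    show hol c (sp g) (TH θp θm (p h) (wd (se (g⁻¹ * h)))) *
      hol c (sp h) (TH θp θm (p k) (wd (se (h⁻¹ * k)))) =
      hol c (sp g) (TH θp θm (p k) (wd (se (g⁻¹ * k))))
    rw [← hedef, ← hfdef, hefdef]
    have e1 : sp h = sp g * (TH θp θm (p h) (wd (se e))).prod := by
      rw [hTHp, hwdp, hh', hspmul, hpmul]
    have e2 : p h = p k - p f := by
      rw [hk', hpmul]
      ring
    rw [e1, ← hol_append, e2, ← hP, ← hQ]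
    have hpe := hm e he
    have hpf := hm f hf
    have hpk : |p k| ≤ |p g| + m + m := by
      have h1 : p k = p g + p e + p f := by rw [hk', hh', hpmul, hpmul]
      rw [h1]
      calc |p g + p e + p f| ≤ |p g + p e| + |p f| := abs_add_le _ _
        _ ≤ |p g| + |p e| + |p f| := by
          have := abs_add_le (p g) (p e)
          linarith
        _ ≤ _ := by linarith
    have hpk' : (|(p k : ℝ)|) ≤ |(p g : ℝ)| + m + m := by exact_mod_cast hpk
    refine main (p k) e he f hf (sp g) (|(p g : ℝ)| + m) (by positivity) ?_ ?_ H c hc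
    · have : ((|p k| : ℤ) : ℝ) = |(p k : ℝ)| := by push_cast; rfl
      linarith
    · rw [hspval]
      have h2 : val (intChr ψ) g = (p g : ℝ) := by rw [val_intChr, hp]
      rw [h2] at hg
      have h3 : 0 ≤ |(p g : ℝ)| := abs_nonneg _
      have h4 : 0 ≤ C1 + C2 := add_nonneg hC10 hC20
      have h5 : 0 ≤ (m : ℝ) * (C1 + C2) := mul_nonneg (Nat.cast_nonneg m) h4
      nlinarith [mul_nonneg h3 h4, mul_nonneg h3 hA0, mul_nonneg h3 h5]
  · intro s s' hss hjss _ _
    show hol c (sp (j s)) (TH θp θm (p (j s')) (wd (se ((j s)⁻¹ * j s')))) = c s s'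
    have e1 : sp (j s) = s := by
      apply hses.inj
      rw [hsp, hpj]
      simp
    have e2 : se ((j s)⁻¹ * j s') = s⁻¹ * s' := by
      apply hses.inj
      rw [hse, ← map_inv, ← map_mul, hpj]
      simp
    rw [e1, e2, hpj, TH_zero, hwd1 _ hss]
    simp

end Pool.Agent.Lib.MP_b1a3a4_al.MVS.HO.H36
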